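import Mathlib
set_option autoImplicit false

namespace Pool.Agent.Results.MP_5bed1d_al.ZMJoin

/-- Terms of type (2,0). -/
inductive Tm : Type
  | var : ℕ → Tm
  | zero : Tm
  | imp : Tm → Tm → Tm

/-- Algebras of type (2,0). -/
structure Alg : Type 1 where
  A : Type
  imp : A → A → A
  z : A

/-- Value of a term under an assignment. -/
def ev (B : Alg) (r : ℕ → B.A) : Tm → B.A
  | .var n => r n
  | .zero => B.z
  | .imp s t => B.imp (ev B r s) (ev B r t)

/-- `B` satisfies the identity `e.1 ≈ e.2`. -/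
def Sat (B : Alg) (e : Tm × Tm) : Prop := ∀ r, ev B r e.1 = ev B r e.2

/-- Algebras satisfying all identities of `S`. -/
def Mods (S : Set (Tm × Tm)) : Set Alg := {B | ∀ e ∈ S, Sat B e}

/-- Identities holding in all members of `K`. -/
def Ids (K : Set Alg) : Set (Tm × Tm) := {e | ∀ B ∈ K, Sat B e}

/-- Implication zroupoids. -/
def IsIZ (B : Alg) : Prop :=
  (∀ x y z, B.imp (B.imp x y) z =
    B.imp (B.imp (B.imp (B.imp z B.z) x) (B.imp (B.imp y z) B.z)) B.z) ∧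
  B.imp (B.imp B.z B.z) B.z = B.z

/-- A variety (equational class) of implication zroupoids. -/
def IZVariety (X : Set Alg) : Prop := (∃ S, X = Mods S) ∧ ∀ B ∈ X, IsIZ B

/-- The variety generated by the union. -/
def join (X Y : Set Alg) : Set Alg := Mods (Ids (X ∪ Y))

/-- The variety of implication zroupoids with zero multiplication. -/
def ZM : Set Alg := {B | IsIZ B ∧ ∀ x y, B.imp x y = B.z}

lemma key {A : Type} (f : A → A → A) (z : A)
    (ax0 : ∀ x y w, f (f x y) w = f (f (f (f w z) x) (f (f y w) z)) z)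
    (ax1 : f (f z z) z = z) (a b c : A) : f (f (f (f a b) c) z) z = f (f a b) c := by
  have h0 : ∀ x0 x1 x2 : A, (f (f (f (f x2 z) x0) (f (f x1 x2) z)) z) = (f (f x0 x1) x2) := fun x0 x1 x2 =>
    (ax0 x0 x1 x2).symm
  have h1 : (f (f z z) z) = z :=
    ax1
  have h2 : ∀ x0 : A, (f (f z (f (f x0 z) z)) z) = (f (f z x0) z) := fun x0 =>
    ((congrArg (fun w => (f (f w (f (f x0 z) z)) z)) h1.symm).trans
      (h0 z x0 z))
  have h3 : ∀ x0 : A, (f (f (f (f z z) x0) z) z) = (f (f x0 z) z) := fun x0 =>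
    ((congrArg (fun w => (f (f (f (f z z) x0) w) z)) h1.symm).trans
      (h0 x0 z z))
  have h4 : ∀ x0 : A, (f (f (f (f z z) x0) (f z z)) z) = (f (f x0 (f z z)) z) := fun x0 =>
    ((congrArg (fun w => (f (f (f (f z z) x0) (f w z)) z)) h1.symm).trans
      (h0 x0 (f z z) z))
  have h6 : ∀ x0 x1 : A, (f (f (f z x0) (f (f x1 (f z z)) z)) z) = (f (f x0 x1) (f z z)) := fun x0 x1 =>
    ((congrArg (fun w => (f (f (f w x0) (f (f x1 (f z z)) z)) z)) h1.symm).trans
      (h0 x0 x1 (f z z)))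
  have h7 : ∀ x0 : A, (f (f (f (f x0 (f z z)) z) z) z) = (f (f (f z x0) (f z z)) z) := fun x0 =>
    ((h3 (f (f x0 (f z z)) z)).symm.trans
      (congrArg (fun w => (f w z)) (h6 z x0)))
  have h8 : (f (f (f z (f z z)) (f z z)) z) = z :=
    ((h7 (f z z)).symm.trans
      ((congrArg (fun w => (f w z)) (h3 (f z z))).trans
      ((h3 z).trans
      h1)))
  have h9 : ∀ x0 : A, (f (f x0 (f z (f z z))) (f z z)) = (f (f (f z x0) z) z) := fun x0 =>
    ((h6 x0 (f z (f z z))).symm.trans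
      (congrArg (fun w => (f (f (f z x0) w) z)) h8))
  have h12 : ∀ x0 x1 : A, (f (f x0 (f (f z z) x1)) z) = (f (f x0 x1) z) := fun x0 x1 =>
    ((h0 x0 (f (f z z) x1) z).symm.trans
      ((congrArg (fun w => (f (f (f (f z z) x0) w) z)) (h3 x1)).trans
      (h0 x0 x1 z)))
  have h13 : ∀ x0 : A, (f (f z (f (f (f z z) x0) z)) z) = (f (f z (f x0 z)) z) := fun x0 =>
    ((h2 (f (f (f z z) x0) z)).symm.trans
      ((congrArg (fun w => (f (f z (f w z)) z)) (h3 x0)).trans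
      (h2 (f x0 z))))
  have h15 : (f (f (f z z) (f z z)) z) = z :=
    ((h7 z).symm.trans
      ((congrArg (fun w => (f w z)) (h9 (f z z)).symm).trans
      ((h4 (f z (f z z))).trans
      h8)))
  have h16 : ∀ x0 : A, (f (f x0 (f z z)) (f z z)) = (f (f (f z x0) z) z) := fun x0 =>
    ((h6 x0 (f z z)).symm.trans
      (congrArg (fun w => (f (f (f z x0) w) z)) h15))
  have h18 : ∀ x0 : A, (f (f (f z (f x0 (f z z))) z) z) = (f (f (f (f z x0) z) z) (f z z)) := fun x0 =>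
    ((h16 (f x0 (f z z))).symm.trans
      (congrArg (fun w => (f w (f z z))) (h16 x0)))
  have h24 : ∀ x0 : A, (f (f z (f (f z x0) (f z z))) z) = (f (f z (f x0 (f z z))) z) := fun x0 =>
    ((congrArg (fun w => (f (f z w) z)) (h6 z x0).symm).trans
      ((h13 (f (f x0 (f z z)) z)).trans
      (h2 (f x0 (f z z)))))
  have h25 : (f (f z (f z (f z z))) z) = (f (f z (f z z)) z) :=
    ((h24 z).symm.trans
      (h12 z (f z z)))
  have h26 : (f (f (f z (f z z)) z) z) = (f (f z z) (f z z)) :=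
    ((congrArg (fun w => (f w z)) h25.symm).trans
      ((h18 z).trans
      (congrArg (fun w => (f (f w z) (f z z))) h1)))
  have h33 : ∀ x0 : A, (f (f x0 (f z (f z z))) z) = (f (f x0 (f z z)) z) := fun x0 =>
    ((h0 x0 (f z (f z z)) z).symm.trans
      ((congrArg (fun w => (f (f (f (f z z) x0) w) z)) h26).trans
      ((h12 (f (f z z) x0) (f z z)).trans
      (h4 x0))))
  have h34 : (f (f z z) (f z z)) = (f z z) :=
    (h26.symm.trans
      ((h3 (f z (f z z))).symm.trans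
      ((congrArg (fun w => (f w z)) (h33 (f z z))).trans
      ((h3 (f z z)).trans
      (congrArg (fun w => (f w z)) h1)))))
  have h35 : ∀ x0 : A, (f (f (f z z) (f (f x0 z) z)) z) = (f (f (f z z) x0) z) := fun x0 =>
    ((congrArg (fun w => (f (f w (f (f x0 z) z)) z)) h34.symm).trans
      (h0 (f z z) x0 z))
  have h36 : ∀ x0 : A, (f (f (f (f x0 z) z) z) z) = (f (f x0 z) z) := fun x0 =>
    ((h3 (f (f x0 z) z)).symm.trans
      ((congrArg (fun w => (f w z)) (h35 x0)).trans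
      (h3 x0)))
  have h38 : ∀ x0 x1 : A, (f (f x0 (f (f x1 z) z)) z) = (f (f x0 x1) z) := fun x0 x1 =>
    ((h0 x0 (f (f x1 z) z) z).symm.trans
      ((congrArg (fun w => (f (f (f (f z z) x0) w) z)) (h36 x1)).trans
      (h0 x0 x1 z)))
  have h39 : ∀ x0 x1 : A, (f (f (f (f z z) x0) x1) z) = (f (f x0 x1) z) := fun x0 x1 =>
    ((h38 (f (f z z) x0) x1).symm.trans
      (h0 x0 x1 z))
  have h41 : ∀ x0 x1 : A, (f (f x0 (f (f (f z z) x1) z)) z) = (f (f x0 (f x1 z)) z) := fun x0 x1 =>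
    ((h38 x0 (f (f (f z z) x1) z)).symm.trans
      ((congrArg (fun w => (f (f x0 (f w z)) z)) (h3 x1)).trans
      (h38 x0 (f x1 z))))
  have h42 : ∀ x0 x1 : A, (f (f (f (f x0 z) x1) (f x0 z)) z) = (f (f x1 (f z z)) x0) := fun x0 x1 =>
    ((h41 (f (f x0 z) x1) x0).symm.trans
      (h0 x1 (f z z) x0))
  have h43 : ∀ x0 x1 : A, (f (f (f (f (f x0 z) z) x1) x0) z) = (f (f x1 (f z z)) (f x0 z)) := fun x0 x1 =>
    ((h38 (f (f (f x0 z) z) x1) x0).symm.trans
      (h42 (f x0 z) x1))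
  have h46 : ∀ x0 x1 x2 : A, (f (f x0 (f (f z z) x1)) x2) = (f (f x0 x1) x2) := fun x0 x1 x2 =>
    ((h0 x0 (f (f z z) x1) x2).symm.trans
      ((congrArg (fun w => (f (f (f (f x2 z) x0) w) z)) (h39 x1 x2)).trans
      (h0 x0 x1 x2)))
  have h49 : ∀ x0 x1 x2 : A, (f (f (f (f z z) x0) x1) x2) = (f (f x0 x1) x2) := fun x0 x1 x2 =>
    ((h0 (f (f z z) x0) x1 x2).symm.trans
      ((congrArg (fun w => (f w z)) (h46 (f x2 z) x0 (f (f x1 x2) z))).trans
      (h0 x0 x1 x2)))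
  have h50 : ∀ x0 x1 : A, (f (f (f (f x0 z) z) z) x1) = (f (f x0 z) x1) := fun x0 x1 =>
    ((h49 (f (f x0 z) z) z x1).symm.trans
      ((congrArg (fun w => (f w x1)) (h38 (f z z) x0)).trans
      (h49 x0 z x1)))
  have h51 : ∀ x0 : A, (f (f z (f z z)) (f x0 z)) = (f (f (f x0 z) x0) z) := fun x0 =>
    ((h43 x0 z).symm.trans
      (congrArg (fun w => (f w z)) (h50 x0 x0)))
  have h53 : ∀ x0 : A, (f (f (f z (f z z)) z) x0) = (f z x0) := fun x0 =>
    ((h49 (f z (f z z)) z x0).symm.trans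
      ((congrArg (fun w => (f w x0)) (h33 (f z z))).trans
      ((h49 (f z z) z x0).trans
      (congrArg (fun w => (f w x0)) h1))))
  have h56 : ∀ x0 : A, (f (f x0 (f (f z (f z z)) z)) z) = (f (f x0 z) z) := fun x0 =>
    ((h38 x0 (f (f z (f z z)) z)).symm.trans
      ((congrArg (fun w => (f (f x0 (f w z)) z)) (h53 z)).trans
      (h38 x0 z)))
  have h57 : ∀ x0 : A, (f (f (f z x0) z) z) = (f (f x0 z) (f z z)) := fun x0 =>
    ((h56 (f z x0)).symm.trans
      (h6 x0 z))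
  have h58 : (f z (f z z)) = (f z z) :=
    ((congrArg (fun w => (f w (f z z))) h1.symm).trans
      ((h57 (f z z)).symm.trans
      (h53 z)))
  have h59 : ∀ x0 : A, (f (f (f x0 z) x0) z) = (f (f z z) (f x0 z)) := fun x0 =>
    ((h51 x0).symm.trans
      (congrArg (fun w => (f w (f x0 z))) h58))
  have h60 : ∀ x0 : A, (f (f z z) (f (f x0 z) z)) = (f (f z z) x0) := fun x0 =>
    ((h59 (f x0 z)).symm.trans
      ((h42 x0 z).trans
      (congrArg (fun w => (f w x0)) h58)))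
  have h63 : ∀ x0 x1 x2 : A, (f (f x0 (f (f x1 z) z)) x2) = (f (f x0 x1) x2) := fun x0 x1 x2 =>
    ((h46 x0 (f (f x1 z) z) x2).symm.trans
      ((congrArg (fun w => (f (f x0 w) x2)) (h60 x1)).trans
      (h46 x0 x1 x2)))
  have h65 : ∀ x0 x1 x2 : A, (f (f (f (f x0 z) z) x1) x2) = (f (f x0 x1) x2) := fun x0 x1 x2 =>
    ((h49 (f (f x0 z) z) x1 x2).symm.trans
      ((congrArg (fun w => (f (f w x1) x2)) (h60 x0)).trans
      (h49 x0 x1 x2)))
  have h66 : ∀ x0 x1 : A, (f (f x0 (f (f x1 x0) z)) z) = (f (f z x1) x0) := fun x0 x1 =>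
    ((h65 x0 (f (f x1 x0) z) z).symm.trans
      (h0 z x1 x0))
  have h67 : ∀ x0 : A, (f (f x0 (f x0 z)) z) = (f (f z z) x0) := fun x0 =>
    ((h65 x0 (f x0 z) z).symm.trans
      ((h42 x0 z).trans
      (congrArg (fun w => (f w x0)) h58)))
  have h72 : ∀ x0 x1 x2 : A, (f (f (f (f x0 z) (f z z)) x1) x2) = (f (f (f z x0) x1) x2) := fun x0 x1 x2 =>
    ((congrArg (fun w => (f (f w x1) x2)) (h57 x0).symm).trans
      (h65 (f z x0) x1 x2))
  have h74 : ∀ x0 : A, (f (f z (f x0 z)) x0) = (f (f z z) x0) := fun x0 =>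
    ((h66 x0 (f x0 z)).symm.trans
      ((congrArg (fun w => (f (f x0 w) z)) (h59 x0)).trans
      ((h46 x0 (f x0 z) z).trans
      (h67 x0))))
  have h75 : ∀ x0 : A, (f (f z z) (f x0 z)) = (f (f z x0) (f x0 z)) := fun x0 =>
    ((h74 (f x0 z)).symm.trans
      (h63 z x0 (f x0 z)))
  have h77 : ∀ x0 x1 : A, (f (f (f z x0) (f (f x1 x0) z)) z) = (f (f (f z z) x1) x0) := fun x0 x1 =>
    ((h72 x0 (f (f x1 x0) z) z).symm.trans
      (h0 (f z z) x1 x0))
  have h78 : ∀ x0 : A, (f (f z z) (f z x0)) = (f z x0) := fun x0 =>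
    ((h67 (f z x0)).symm.trans
      ((h77 x0 z).trans
      (congrArg (fun w => (f w x0)) h1)))
  have h79 : ∀ x0 : A, (f (f (f z x0) (f x0 z)) z) = (f (f z z) x0) := fun x0 =>
    ((h72 x0 (f x0 z) z).symm.trans
      ((h42 x0 (f z z)).trans
      (congrArg (fun w => (f w x0)) (h78 z))))
  have h80 : ∀ x0 : A, (f (f (f z z) (f x0 z)) z) = (f (f z z) x0) := fun x0 =>
    ((congrArg (fun w => (f w z)) (h75 x0)).trans
      (h79 x0))
  have h81 : ∀ x0 x1 : A, (f (f (f x0 z) z) x1) = (f (f (f z z) x0) x1) := fun x0 x1 =>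
    ((h49 (f x0 z) z x1).symm.trans
      (congrArg (fun w => (f w x1)) (h80 x0)))
  have h82 : ∀ x0 : A, (f (f (f z z) x0) z) = (f (f z z) (f x0 z)) := fun x0 =>
    ((congrArg (fun w => (f w z)) (h60 x0).symm).trans
      (h80 (f x0 z)))
  have h83 : ∀ x0 x1 : A, (f (f (f z z) (f x0 z)) x1) = (f (f x0 z) x1) := fun x0 x1 =>
    ((h81 (f x0 z) x1).symm.trans
      (h65 x0 z x1))
  have h87 : ∀ x0 x1 : A, (f (f (f z x0) (f x0 z)) x1) = (f (f x0 z) x1) := fun x0 x1 =>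
    ((congrArg (fun w => (f w x1)) (h75 x0).symm).trans
      (h83 x0 x1))
  have h88 : ∀ x0 : A, (f (f x0 z) z) = (f (f z z) x0) := fun x0 =>
    ((h83 x0 z).symm.trans
      ((h82 (f x0 z)).trans
      (h60 x0)))
  have h90 : ∀ x0 : A, (f (f x0 z) (f z z)) = (f z x0) := fun x0 =>
    ((h57 x0).symm.trans
      ((h88 (f z x0)).trans
      (h78 x0)))
  have h93 : ∀ x0 x1 : A, (f (f x0 (f z z)) x1) = (f (f z (f x0 z)) x1) := fun x0 x1 =>
    ((h65 x0 (f z z) x1).symm.trans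
      (congrArg (fun w => (f w x1)) (h90 (f x0 z))))
  have h95 : ∀ x0 : A, (f (f (f z z) x0) (f z z)) = (f z (f x0 z)) := fun x0 =>
    ((h81 x0 (f z z)).symm.trans
      (h90 (f x0 z)))
  have h98 : ∀ x0 : A, (f (f z x0) (f z z)) = (f z (f (f z x0) z)) := fun x0 =>
    ((congrArg (fun w => (f w (f z z))) (h78 x0).symm).trans
      (h95 (f z x0)))
  have h101 : ∀ x0 : A, (f z (f (f z x0) z)) = (f z (f x0 z)) := fun x0 =>
    ((h98 x0).symm.trans
      ((congrArg (fun w => (f w (f z z))) (h90 x0).symm).trans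
      ((h16 (f x0 z)).trans
      ((h88 (f z (f x0 z))).trans
      (h78 (f x0 z))))))
  have h105 : ∀ x0 : A, (f (f z (f x0 z)) (f z x0)) = (f z x0) := fun x0 =>
    ((congrArg (fun w => (f w (f z x0))) (h101 x0).symm).trans
      ((h74 (f z x0)).trans
      (h78 x0)))
  have h117 : ∀ x0 : A, (f (f z z) (f (f x0 z) x0)) = (f (f z z) x0) := fun x0 =>
    ((h88 (f (f x0 z) x0)).symm.trans
      ((congrArg (fun w => (f w z)) (h59 x0)).trans
      ((h82 (f x0 z)).trans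
      (h60 x0))))
  have h142 : ∀ x0 x1 x2 : A, (f (f (f (f x0 z) x0) x1) x2) = (f (f x0 x1) x2) := fun x0 x1 x2 =>
    ((h49 (f (f x0 z) x0) x1 x2).symm.trans
      ((congrArg (fun w => (f (f w x1) x2)) (h117 x0)).trans
      (h49 x0 x1 x2)))
  have h143 : ∀ x0 x1 : A, (f (f z x0) x1) = (f (f x1 x0) x1) := fun x0 x1 =>
    ((h66 x1 x0).symm.trans
      ((h142 x1 (f (f x0 x1) z) z).symm.trans
      (h0 x1 x0 x1)))
  have h164 : ∀ x0 : A, (f (f x0 z) (f z x0)) = (f z x0) := fun x0 =>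
    ((h87 x0 (f z x0)).symm.trans
      ((h143 (f x0 z) (f z x0)).symm.trans
      (h105 x0)))
  have h182 : ∀ x0 x1 : A, (f (f (f z x0) (f x1 z)) z) = (f (f x0 (f z z)) x1) := fun x0 x1 =>
    ((congrArg (fun w => (f w z)) (h143 x0 (f x1 z))).trans
      (h42 x1 x0))
  have h183 : ∀ x0 x1 : A, (f (f x0 (f z z)) (f x1 z)) = (f (f (f z x0) x1) z) := fun x0 x1 =>
    ((h182 x0 (f x1 z)).symm.trans
      (h63 (f z x0) x1 z))
  have h184 : ∀ x0 x1 : A, (f (f (f z (f x0 z)) x1) z) = (f (f z x0) (f x1 z)) := fun x0 x1 =>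
    ((h183 (f x0 z) x1).symm.trans
      (congrArg (fun w => (f w (f x1 z))) (h90 x0)))
  have h186 : ∀ x0 x1 : A, (f (f (f x0 (f z z)) x1) z) = (f (f z x0) (f x1 z)) := fun x0 x1 =>
    ((congrArg (fun w => (f w z)) (h93 x0 x1)).trans
      (h184 x0 x1))
  have h213 : ∀ x0 x1 : A, (f (f x0 (f z z)) (f x1 x0)) = (f (f (f z x0) x1) x0) := fun x0 x1 =>
    ((h182 x0 (f x1 x0)).symm.trans
      ((congrArg (fun w => (f (f w (f (f x1 x0) z)) z)) (h164 x0).symm).trans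
      (h0 (f z x0) x1 x0)))
  have h219 : ∀ x0 x1 : A, (f (f (f z x0) x1) x0) = (f (f (f z z) x1) x0) := fun x0 x1 =>
    ((h213 x0 x1).symm.trans
      ((h182 x0 (f x1 x0)).symm.trans
      (h77 x0 x1)))
  have h220 : ∀ x0 x1 x2 : A, (f (f (f (f z x0) x1) x0) x2) = (f (f x1 x0) x2) := fun x0 x1 x2 =>
    ((congrArg (fun w => (f w x2)) (h219 x0 x1)).trans
      (h49 x1 x0 x2))
  have h276 : ∀ x0 x1 : A, (f (f z x0) (f (f x1 x0) z)) = (f (f x1 x0) z) := fun x0 x1 =>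
    ((h186 x0 (f x1 x0)).symm.trans
      ((congrArg (fun w => (f w z)) (h213 x0 x1)).trans
      (h220 x0 x1 z)))
  have h277 : ∀ x0 x1 : A, (f (f (f z x0) x1) x0) = (f (f z z) (f x1 x0)) := fun x0 x1 =>
    ((h213 x0 x1).symm.trans
      ((h182 x0 (f x1 x0)).symm.trans
      ((congrArg (fun w => (f w z)) (h276 x0 x1)).trans
      (h88 (f x1 x0)))))
  have h278 : ∀ x0 x1 : A, (f (f (f z z) x0) x1) = (f (f z z) (f x0 x1)) := fun x0 x1 =>
    ((h219 x1 x0).symm.trans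
      (h277 x1 x0))
  have h279 : ∀ x0 x1 x2 : A, (f (f z z) (f (f x0 x1) x2)) = (f (f x0 x1) x2) := fun x0 x1 x2 =>
    ((h278 (f x0 x1) x2).symm.trans
      ((congrArg (fun w => (f w x2)) (h277 x1 x0).symm).trans
      (h220 x1 x0 x2)))
  exact ((h88 (f (f a b) c)).trans
      (h279 a b c))

lemma invol {X : Set Alg} (hX : IZVariety X) (h : ¬ ZM ⊆ X) (B : Alg) (hB : B ∈ X) (x : B.A) :
    B.imp (B.imp x B.z) B.z = x := by
  obtain ⟨⟨S, rfl⟩, hI⟩ := hX
  obtain ⟨C, hC, hn⟩ := Set.not_subset.mp h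
  obtain ⟨⟨s, t⟩, he, hs⟩ : ∃ e ∈ S, ¬ Sat C e := by
    by_contra hc
    push Not at hc
    exact hn hc
  have hb := hB _ he
  obtain ⟨a0, a1⟩ := hI B hB
  have aux : ∀ n t, (∀ r, r n = ev B r t) → (¬ ∀ r, r n = ev C r t) →
      B.imp (B.imp x B.z) B.z = x := by
    intro n t h1 h2
    match t, h1, h2 with
    | .var m, h1, h2 =>
      have hnm : m ≠ n := fun e => h2 (fun r => by rw [e]; rfl)
      have := h1 (fun k => if k = n then B.imp (B.imp x B.z) B.z else x)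
      simpa [ev, hnm] using this
    | .zero, h1, _ =>
      have : x = B.z := h1 (fun _ => x)
      rw [this, a1]
    | .imp p q, h1, _ =>
      have h3 : ∀ y, ∃ a b, y = B.imp a b := fun y => ⟨_, _, h1 (fun _ => y)⟩
      obtain ⟨a, c, rfl⟩ := h3 x
      obtain ⟨a, b, rfl⟩ := h3 a
      exact key B.imp B.z a0 a1 a b c
  match s, t, hb, hs with
  | .var n, t, hb, hs => exact aux n t hb hs
  | s, .var n, hb, hs => exact aux n s (fun r => (hb r).symm) (fun h => hs (fun r => (h r).symm))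
  | .zero, .zero, _, hs => exact absurd (fun _ => rfl) hs
  | .zero, .imp _ _, _, hs => exact absurd (fun _ => (hC.2 _ _).symm) hs
  | .imp _ _, .zero, _, hs => exact absurd (fun _ => hC.2 _ _) hs
  | .imp _ _, .imp _ _, _, hs => exact absurd (fun _ => (hC.2 _ _).trans (hC.2 _ _).symm) hs

theorem result (X Y : Set Alg) (hX : IZVariety X) (hY : IZVariety Y)
    (h1 : ¬ ZM ⊆ X) (h2 : ¬ ZM ⊆ Y) : ¬ ZM ⊆ join X Y := by
  intro h
  have h3 : (⟨Bool, fun _ _ => false, false⟩ : Alg) ∈ ZM := ⟨⟨fun _ _ _ => rfl, rfl⟩, fun _ _ => rfl⟩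
  have h4 := h h3 (.imp (.imp (.var 0) .zero) .zero, .var 0) (by
    rintro B (hB | hB) r
    · exact invol hX h1 B hB _
    · exact invol hY h2 B hB _) (fun _ => true)
  exact absurd h4 (by decide)

end Pool.Agent.Results.MP_5bed1d_al.ZMJoin
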